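import Pool.Agent.Run7.h453.PC.Law

/-!
# The rank formula of Beilinson for complete intersections of odd dimension in terms of numbers of points

Let `X` be a smooth complete intersection of dimension `n = 2i + 1` in a projective space over a number
field `K`.  For a prime `v` of good reduction with `q` elements in the residue field let `N_{v,k}` be the
number of the points of `X` over the field with `q^k` elements.  For `γ > π/2` and `T > 0` put

`W(T) = ∑_v ∑_{k ≥ 1} (N_{v,k} - ∑_{m ≤ n} q^{mk}) / (k q^{k(i+1)}) · exp(iγ k log q / T) / Γ(1 + k log q / T)`,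

an absolutely convergent series, and let `W₂(T)` be its part with `k ≤ 2`.  Assume only that
`F(s) = L(H^n(X), s)` has a meromorphic continuation to the points of the real segment between the central
point `s = i + 1` and `i + 3/2`, where the Euler product begins to converge.  Nothing is assumed about zeros or
about a functional equation.  Then, with the order `r` and the leading coefficient `c` of `F` at `i + 1`, the
product `b` of the values of the inverses of the Euler factors at the finite set `S` of the bad primes, and the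
number `Z` of the zeros minus the number of the poles of `F` on the ray `s > i + 1`,

* `W(T) = r (log T - Λ_γ) - log |c b| + π i Z + O(1/T)`,
* `W₂(T) = r (log T - Λ_γ) - log |c b| + π i Z + κ + o(1)` with a real constant `κ`.

So the rank formula of Beilinson for `X`, `r = rank CH^{i+1}(X)_0`, is equivalent to the statement
`Re W₂(T_k) / log T_k → rank CH^{i+1}(X)_0` for one sequence `T_k → ∞`, which involves only the numbers of
the points of `X` over the residue fields of the primes `v` and their quadratic extensions; and the value of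
the leading coefficient is equivalent to a limit formula for `exp W(T_k)` along one sequence.
-/

set_option autoImplicit false

open Filter Topology Set NumberField IsDedekindDomain

namespace Pool.Agent.Results.MP_6dc9d1_nt.PointCountForm

variable {K : Type} [Field K] [NumberField K] {r N : ℕ}

/-- The residue field of the prime `v`. -/
noncomputable instance residueField (v : HeightOneSpectrum (𝓞 K)) : Field (𝓞 K ⧸ v.asIdeal) :=
  Pool.Agent.R409.RA.fieldQuot v

/-- The projective scheme defined by the homogeneous polynomials `X` with coefficients in the integers of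
`K`: this is `q^k - 1` times the number of its points with coordinates in the field with `q^k` elements,
`q` the norm of `v`, namely the number of the nonzero solutions, in the algebraic closure of the residue
field of `v`, with `x^(q^k) = x` for all coordinates. -/
noncomputable def cone (X : Set (MvPolynomial (Fin r) (𝓞 K))) (v : HeightOneSpectrum (𝓞 K))
    (k : ℕ) : ℕ :=
  Nat.card {u : Fin r → AlgebraicClosure (𝓞 K ⧸ v.asIdeal) // u ≠ 0 ∧
    (∀ j, u j ^ (Ideal.absNorm v.asIdeal ^ k) = u j) ∧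
    ∀ f ∈ X, MvPolynomial.eval₂ ((algebraMap (𝓞 K ⧸ v.asIdeal)
      (AlgebraicClosure (𝓞 K ⧸ v.asIdeal))).comp (Ideal.Quotient.mk v.asIdeal)) u f = 0}

/-- `N_{v,k}`, the number of the points of `X` over the field with `q^k` elements. -/
noncomputable def points (X : Set (MvPolynomial (Fin r) (𝓞 K))) (v : HeightOneSpectrum (𝓞 K))
    (k : ℕ) : ℝ :=
  (cone X v k : ℝ) / ((Ideal.absNorm v.asIdeal : ℝ) ^ k - 1)

/-- `α_1, …, α_N` are the eigenvalues of the geometric Frobenius at `v` on the middle cohomology of the smooth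
complete intersection `X` of odd dimension `n`: they have absolute value `q^{n/2}`, and
`N_{v,k} = ∑_{m ≤ n} q^{mk} - ∑_j α_j^k` for all `k ≥ 1`. -/
def IsFrobenius (X : Set (MvPolynomial (Fin r) (𝓞 K))) (n : ℕ) (v : HeightOneSpectrum (𝓞 K))
    (α : Fin N → ℂ) : Prop :=
  (∀ j, ‖α j‖ = (Ideal.absNorm v.asIdeal : ℝ) ^ ((n : ℝ) / 2)) ∧
    ∀ k : ℕ, 1 ≤ k → (points X v k : ℂ) =
      ∑ m ∈ Finset.range (n + 1), (Ideal.absNorm v.asIdeal : ℂ) ^ (m * k) - ∑ j, α j ^ k

/-- `F(s)` is `L(H^{2i+1}(X), s)`: an Euler product `∏_v ∏_j (1 - α_{v,j} q_v^{-s})⁻¹` for `Re s > i + 3/2`,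
where the `α_{v,j}` are the eigenvalues of Frobenius for `v` outside the finite set `S`, and at the primes in
`S` the zeros of a real polynomial, of absolute value at most `q_v^{(2i+1)/2}` (the eigenvalues of
Frobenius on the invariants of inertia, completed by zeros); and `F` is meromorphic at the points of the real
segment from `i + 1` to `i + 3/2`. -/
structure IsLFunction (X : Set (MvPolynomial (Fin r) (𝓞 K))) (i : ℕ)
    (S : Finset (HeightOneSpectrum (𝓞 K))) (α : HeightOneSpectrum (𝓞 K) → Fin N → ℂ)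
    (F : ℂ → ℂ) : Prop where
  good : ∀ v ∉ S, IsFrobenius X (2 * i + 1) v (α v)
  bad : ∀ v ∈ S, (∀ j, ‖α v j‖ ≤ (Ideal.absNorm v.asIdeal : ℝ) ^ (((2 * i + 1 : ℕ) : ℝ) / 2)) ∧
    ∃ P : Polynomial ℝ, P.map (algebraMap ℝ ℂ) = ∏ j, (Polynomial.X - Polynomial.C (α v j))
  mero : ∀ x : ℝ, (i : ℝ) + 1 ≤ x → x ≤ (i : ℝ) + 3 / 2 → MeromorphicAt F (x : ℂ)
  prod : ∀ s : ℂ, (i : ℝ) + 3 / 2 < s.re → F s =
    ∏' v : HeightOneSpectrum (𝓞 K), ∏ j, (1 - α v j * (Ideal.absNorm v.asIdeal : ℂ) ^ (-s))⁻¹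

/-- The weight `exp(iγ t / T) / Γ(1 + t / T)`. -/
noncomputable def weight (γ T t : ℝ) : ℂ :=
  Complex.exp ((γ * (t / T) : ℝ) * Complex.I) * ((Real.Gamma (1 + t / T))⁻¹ : ℝ)

open Classical in
/-- The term of `W(T)` for the prime `v = x.1` and the degree `k = x.2 + 1`. -/
noncomputable def term (X : Set (MvPolynomial (Fin r) (𝓞 K))) (i : ℕ)
    (S : Finset (HeightOneSpectrum (𝓞 K))) (γ T : ℝ) (x : HeightOneSpectrum (𝓞 K) × ℕ) : ℂ :=
  if x.1 ∈ S then 0 else
    (((points X x.1 (x.2 + 1) -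
      ∑ m ∈ Finset.range (2 * i + 2), (Ideal.absNorm x.1.asIdeal : ℝ) ^ (m * (x.2 + 1))) /
      ((x.2 + 1) * (Ideal.absNorm x.1.asIdeal : ℝ) ^ ((i + 1) * (x.2 + 1))) : ℝ) : ℂ) *
    weight γ T ((x.2 + 1) * Real.log (Ideal.absNorm x.1.asIdeal))

/-- `W(T)` -/
noncomputable def W (X : Set (MvPolynomial (Fin r) (𝓞 K))) (i : ℕ)
    (S : Finset (HeightOneSpectrum (𝓞 K))) (γ T : ℝ) : ℂ := ∑' x, term X i S γ T x

/-- `W₂(T)`, the part of `W(T)` with `k = 1, 2`. -/
noncomputable def W₂ (X : Set (MvPolynomial (Fin r) (𝓞 K))) (i : ℕ)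
    (S : Finset (HeightOneSpectrum (𝓞 K))) (γ T : ℝ) : ℂ :=
  ∑' x : HeightOneSpectrum (𝓞 K) × ℕ, if x.2 < 2 then term X i S γ T x else 0

/-- `Λ_γ = ∫_0^∞ (e^{-u} - e^{iγu} / Γ(1 + u)) du / u` -/
noncomputable def Lam (γ : ℝ) : ℂ := ∫ u in Set.Ioi (0 : ℝ),
  (Complex.exp (-(u : ℂ)) - Complex.exp ((γ * u : ℝ) * Complex.I) * ((Real.Gamma (1 + u))⁻¹ : ℝ)) / u

/-- `b`, the product of the inverses of the Euler factors at the primes in `S`, at `s = i + 1`. -/
noncomputable def badValue (S : Finset (HeightOneSpectrum (𝓞 K)))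
    (α : HeightOneSpectrum (𝓞 K) → Fin N → ℂ) (i : ℕ) : ℂ :=
  ∏ v ∈ S, ∏ j, (1 - α v j * (Ideal.absNorm v.asIdeal : ℂ) ^ (-((i : ℂ) + 1)))

/-- `Z`, the number of the zeros minus the number of the poles of `F` in the interval `(i + 1, ∞)`, counted
with multiplicity. -/
noncomputable def excess (F : ℂ → ℂ) (i : ℕ) : ℤ :=
  ∑ᶠ x ∈ Set.Ioi ((i : ℝ) + 1), (meromorphicOrderAt F (x : ℂ)).untop₀

/-- `F` has the order `ρ` and the leading coefficient `B` at `i + 1`. -/
def Leading (F : ℂ → ℂ) (i : ℕ) (ρ : ℤ) (B : ℂ) : Prop :=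
  Tendsto (fun s : ℂ => (s - (i + 1)) ^ (-ρ) * F s) (𝓝[≠] ((i : ℂ) + 1)) (𝓝 B)

/-- The main term `ρ (log T - Λ_γ) - log |B b| + π i Z`. -/
noncomputable def mainTerm (S : Finset (HeightOneSpectrum (𝓞 K)))
    (α : HeightOneSpectrum (𝓞 K) → Fin N → ℂ) (F : ℂ → ℂ) (i : ℕ) (ρ : ℤ) (B : ℂ) (γ T : ℝ) : ℂ :=
  ρ * (Real.log T - Lam γ) - Real.log ‖B * badValue S α i‖ + Real.pi * excess F i * Complex.I

section proof

variable {X : Set (MvPolynomial (Fin r) (𝓞 K))} {i : ℕ} {S : Finset (HeightOneSpectrum (𝓞 K))}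
  {α : HeightOneSpectrum (𝓞 K) → Fin N → ℂ} {F : ℂ → ℂ}

theorem re_good {n : ℕ} {v : HeightOneSpectrum (𝓞 K)} {β : Fin N → ℂ} (h : IsFrobenius X n v β)
    (k : ℕ) : ((∑ m ∈ Finset.range (n + 1), (Ideal.absNorm v.asIdeal : ℝ) ^ (m * (k + 1)) -
      points X v (k + 1) : ℝ) : ℂ) = ∑ j, β j ^ (k + 1) := by
  have h1 := h.2 (k + 1) (by omega)
  push_cast
  rw [h1]
  ring

theorem IsLFunction.norm (h : IsLFunction X i S α F) (v : HeightOneSpectrum (𝓞 K)) (j : Fin N) :
    ‖α v j‖ ≤ (Ideal.absNorm v.asIdeal : ℝ) ^ (((2 * i + 1 : ℕ) : ℝ) / 2) := by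
  by_cases hv : v ∈ S
  · exact (h.bad v hv).1 j
  · exact ((h.good v hv).1 j).le

theorem IsLFunction.re (h : IsLFunction X i S α F) (v : HeightOneSpectrum (𝓞 K)) (k : ℕ) :
    (∑ j, α v j ^ (k + 1)).im = 0 := by
  by_cases hv : v ∈ S
  · exact Pool.Agent.N41.RM.psum_real_of_stable (Pool.Agent.N41.RM.conj_stable (h.bad v hv).2) _
  · rw [← re_good (h.good v hv) k, Complex.ofReal_im]

theorem IsLFunction.mero' (h : IsLFunction X i S α F) (x : ℝ) (h1 : ((i + 1 : ℕ) : ℝ) ≤ x)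
    (h2 : x ≤ ((i + 1 : ℕ) : ℝ) + 1 / 2) : MeromorphicAt F (x : ℂ) := by
  push_cast at h1 h2
  exact h.mero x h1 (by linarith)

theorem IsLFunction.prod' (h : IsLFunction X i S α F) (s : ℂ)
    (hs : ((i + 1 : ℕ) : ℝ) + 1 / 2 < s.re) : F s =
    ∏' v : HeightOneSpectrum (𝓞 K), ∏ j, (1 - α v j * (Ideal.absNorm v.asIdeal : ℂ) ^ (-s))⁻¹ := by
  push_cast at hs
  exact h.prod s (by linarith)

theorem term_eq (h : IsLFunction X i S α F) (γ T : ℝ) (x : HeightOneSpectrum (𝓞 K) × ℕ) :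
    term X i S γ T x = Pool.Agent.N41.RM.rterm (Pool.Agent.N41.RM.qv (K := K))
      (Pool.Agent.N41.RM.av (i + 1) (Pool.Agent.N41.RM.ext S α)) γ T x := by
  unfold term Pool.Agent.N41.RM.rterm Pool.Agent.N41.RM.av Pool.Agent.N41.RM.ext
  by_cases hv : x.1 ∈ S
  · simp [hv]
  · simp only [if_neg hv]
    have hq : (2 : ℝ) ≤ Ideal.absNorm x.1.asIdeal := Pool.Agent.R409.RA.two_le x.1
    have hq0 : (Ideal.absNorm x.1.asIdeal : ℂ) ≠ 0 := by
      have : (Ideal.absNorm x.1.asIdeal : ℝ) ≠ 0 := by linarith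
      exact_mod_cast this
    have h1 := re_good (h.good x.1 hv) x.2
    have h2 : ∑ j, (α x.1 j / (Ideal.absNorm x.1.asIdeal : ℂ) ^ (i + 1)) ^ (x.2 + 1) =
        (∑ j, α x.1 j ^ (x.2 + 1)) / (Ideal.absNorm x.1.asIdeal : ℂ) ^ ((i + 1) * (x.2 + 1)) := by
      rw [Finset.sum_div]
      refine Finset.sum_congr rfl fun j _ => ?_
      rw [div_pow, ← pow_mul]
    rw [h2, ← h1]
    unfold weight Pool.Agent.N41.RM.fq Pool.Agent.N41.RM.qv
    have h3 : ((x.2 : ℂ) + 1) ≠ 0 := by exact_mod_cast (Nat.succ_ne_zero x.2)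
    push_cast
    field_simp
    ring

theorem W_eq (h : IsLFunction X i S α F) (γ T : ℝ) :
    W X i S γ T = Pool.Agent.N41.RM.rmn (Pool.Agent.N41.RM.qv (K := K))
      (Pool.Agent.N41.RM.av (i + 1) (Pool.Agent.N41.RM.ext S α)) γ T :=
  tsum_congr fun x => term_eq h γ T x

theorem W₂_eq (h : IsLFunction X i S α F) (γ T : ℝ) :
    W₂ X i S γ T = Pool.Agent.Run7.h453.PC.low (Pool.Agent.N41.RM.qv (K := K))
      (Pool.Agent.N41.RM.av (i + 1) (Pool.Agent.N41.RM.ext S α)) γ T :=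
  tsum_congr fun x => by rw [term_eq h γ T x]

theorem bad_eq : Pool.Agent.N41.RM.bad S α ((i + 1 : ℕ) : ℂ) = badValue S α i := by
  unfold Pool.Agent.N41.RM.bad badValue
  push_cast
  rfl

theorem excess_eq : Pool.Agent.N41.RM.excess F ((i + 1 : ℕ) : ℝ) = excess F i := by
  unfold Pool.Agent.N41.RM.excess excess
  push_cast
  rfl

end proof

/-- **Theorem.** Let `F(s) = L(H^{2i+1}(X), s)` for a complete intersection `X` of dimension `2i + 1` over the
number field `K` (`IsLFunction`), and `γ > π/2`.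

* `W(T)` converges absolutely for `T > 0`; `b ≠ 0`; `F` is not identically zero near the points of the ray
  `[i + 1, ∞)` and has only finitely many zeros and poles there; if it has no poles on `(i + 1, ∞)`, then
  `Z ≥ 0`, and `Z = 0` if and only if it has no zeros there.
* There are the order `ρ` and the leading coefficient `c ≠ 0` of `F` at `i + 1`, and a real number `κ`, such that
  `W(T) = ρ (log T - Λ_γ) - log |c b| + π i Z + O(1/T)` and
  `W₂(T) = ρ (log T - Λ_γ) - log |c b| + π i Z + κ + o(1)`.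
* For every integer `ρ` the following are equivalent: `ord_{s=i+1} F = ρ`; `Re W(T) / log T → ρ`;
  `Re W₂(T) / log T → ρ`; `Re W₂(T_k) / log T_k → ρ` for one sequence `T_k → ∞`.
* For every integer `ρ` and complex number `B ≠ 0`, `F` has the order `ρ` and the leading coefficient `B` at
  `i + 1` if and only if `exp (W(T_k)) / T_k^ρ → e^{-ρ Λ_γ} / (B b)` for one sequence `T_k → ∞`. -/
theorem result (K : Type) [Field K] [NumberField K] (r N i : ℕ)
    (X : Set (MvPolynomial (Fin r) (𝓞 K))) (S : Finset (HeightOneSpectrum (𝓞 K)))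
    (α : HeightOneSpectrum (𝓞 K) → Fin N → ℂ) (F : ℂ → ℂ) (h : IsLFunction X i S α F)
    (γ : ℝ) (hγ : Real.pi / 2 < γ) :
    ((∀ T : ℝ, 0 < T → Summable fun x => ‖term X i S γ T x‖) ∧
      badValue S α i ≠ 0 ∧
      (∀ x : ℝ, (i : ℝ) + 1 ≤ x → meromorphicOrderAt F (x : ℂ) ≠ ⊤) ∧
      {x : ℝ | (i : ℝ) + 1 ≤ x ∧ meromorphicOrderAt F (x : ℂ) ≠ 0}.Finite ∧
      ((∀ x : ℝ, (i : ℝ) + 1 < x → 0 ≤ meromorphicOrderAt F (x : ℂ)) → 0 ≤ excess F i ∧
        (excess F i = 0 ↔ ∀ x : ℝ, (i : ℝ) + 1 < x → meromorphicOrderAt F (x : ℂ) = 0))) ∧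
    (∃ (ρ : ℤ) (c : ℂ) (κ : ℝ), meromorphicOrderAt F ((i : ℂ) + 1) = ρ ∧ c ≠ 0 ∧ Leading F i ρ c ∧
      (fun T : ℝ => W X i S γ T - mainTerm S α F i ρ c γ T) =O[atTop] (fun T : ℝ => 1 / T) ∧
      Tendsto (fun T : ℝ => W₂ X i S γ T - (mainTerm S α F i ρ c γ T + κ)) atTop (𝓝 0)) ∧
    (∀ ρ : ℤ, List.TFAE [
      meromorphicOrderAt F ((i : ℂ) + 1) = ρ,
      Tendsto (fun T : ℝ => (W X i S γ T).re / Real.log T) atTop (𝓝 ρ),
      Tendsto (fun T : ℝ => (W₂ X i S γ T).re / Real.log T) atTop (𝓝 ρ),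
      ∃ T : ℕ → ℝ, Tendsto T atTop atTop ∧
        Tendsto (fun k => (W₂ X i S γ (T k)).re / Real.log (T k)) atTop (𝓝 ρ)]) ∧
    ∀ (ρ : ℤ) (B : ℂ), B ≠ 0 → (Leading F i ρ B ↔
      ∃ T : ℕ → ℝ, Tendsto T atTop atTop ∧
        Tendsto (fun k => Complex.exp (W X i S γ (T k)) / (T k : ℂ) ^ ρ) atTop
          (𝓝 (Complex.exp (-(ρ * Lam γ)) / (B * badValue S α i)))) := by
  have hi : (2 * i + 1) + 1 = 2 * (i + 1) := by ring
  have hn := h.norm
  have hr := h.re
  have E := Pool.Agent.Run7.h453.PC.en_ext (S := S) (m := i + 1) hi hn hr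
  obtain ⟨ρ₀, c, hc, hb, h1, h2, h3, h4⟩ := Pool.Agent.Run7.h453.PC.lawS (S := S) (m := i + 1)
    (F := F) hi hn hr h.mero' h.prod' hγ
  obtain ⟨h5, h6⟩ := Pool.Agent.Run7.h453.PC.ray_finite (m := i + 1) (F := F) hi hn hr h.mero' h.prod'
  have hWf : W X i S γ = Pool.Agent.N41.RM.rmn (Pool.Agent.N41.RM.qv (K := K))
      (Pool.Agent.N41.RM.av (i + 1) (Pool.Agent.N41.RM.ext S α)) γ := funext fun T => W_eq h γ T
  have hW₂f : W₂ X i S γ = Pool.Agent.Run7.h453.PC.low (Pool.Agent.N41.RM.qv (K := K))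
      (Pool.Agent.N41.RM.av (i + 1) (Pool.Agent.N41.RM.ext S α)) γ := funext fun T => W₂_eq h γ T
  have hi1 : (((i + 1 : ℕ) : ℂ)) = (i : ℂ) + 1 := by push_cast; rfl
  have hi2 : (((i + 1 : ℕ) : ℝ)) = (i : ℝ) + 1 := by push_cast; rfl
  have h0 := Pool.Agent.Run7.h453.PC.excess_zero_iff (m := i + 1) h5 h6
  rw [bad_eq] at hb h3 h4
  rw [excess_eq] at h3 h0
  have hmer1 : MeromorphicAt F ((i : ℂ) + 1) := by
    have := h.mero ((i : ℝ) + 1) le_rfl (by linarith)
    push_cast at this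
    exact this
  rw [hi1] at h1 h2
  rw [hi2] at h5 h6 h0
  have hlead : Leading F i ρ₀ c := Pool.Agent.N41.RM.lim_of_order hmer1 h1 h2
  have hLam : Pool.Agent.W187.UR.Lam γ = Lam γ := rfl
  rw [hLam] at h3 h4
  have hWlaw : (fun T : ℝ => W X i S γ T - mainTerm S α F i ρ₀ c γ T) =O[atTop]
      (fun T : ℝ => 1 / T) := by
    rw [hWf]
    exact h3
  have ht1 : Tendsto (fun T : ℝ => W X i S γ T - mainTerm S α F i ρ₀ c γ T) atTop (𝓝 0) := by
    refine hWlaw.trans_tendsto ?_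
    exact tendsto_const_nhds.div_atTop tendsto_id
  have ht2 : Tendsto (fun T : ℝ => W₂ X i S γ T - (mainTerm S α F i ρ₀ c γ T +
      (Pool.Agent.Run7.h453.PC.kap
        (Pool.Agent.N41.RM.av (i + 1) (Pool.Agent.N41.RM.ext S α)) : ℝ))) atTop (𝓝 0) := by
    rw [hWf] at ht1
    rw [hW₂f]
    exact Pool.Agent.Run7.h453.PC.low_law E ht1
  have hre1 : Tendsto (fun T : ℝ => (W X i S γ T).re / Real.log T) atTop (𝓝 ρ₀) := by
    refine Pool.Agent.Run7.h453.PC.re_div (c := ρ₀ * (-Lam γ) - Real.log ‖c * badValue S α i‖ +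
      Real.pi * excess F i * Complex.I) (ht1.congr fun T => ?_)
    unfold mainTerm
    ring
  have hre2 : Tendsto (fun T : ℝ => (W₂ X i S γ T).re / Real.log T) atTop (𝓝 ρ₀) := by
    refine Pool.Agent.Run7.h453.PC.re_div (c := ρ₀ * (-Lam γ) - Real.log ‖c * badValue S α i‖ +
      Real.pi * excess F i * Complex.I + (Pool.Agent.Run7.h453.PC.kap
        (Pool.Agent.N41.RM.av (i + 1) (Pool.Agent.N41.RM.ext S α)) : ℝ)) (ht2.congr fun T => ?_)
    unfold mainTerm
    ring
  have hint : ∀ ρ : ℤ, (ρ₀ : ℝ) = ρ → meromorphicOrderAt F ((i : ℂ) + 1) = ρ := by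
    intro ρ hρ
    rw [h1]
    exact_mod_cast hρ
  refine ⟨⟨fun T hT => ?_, hb, h5, h6, h0⟩, ⟨ρ₀, c, _, h1, hc, hlead, hWlaw, ht2⟩, fun ρ => ?_,
    fun ρ B hB => ?_⟩
  · refine (E.rterm_summable γ hT).congr fun x => ?_
    rw [term_eq h]
  · tfae_have 1 → 2 := by
      intro h7
      rw [h1] at h7
      have h8 : ρ₀ = ρ := by exact_mod_cast h7
      rw [← h8]
      exact hre1
    tfae_have 2 → 3 := by
      intro h7
      have h8 := tendsto_nhds_unique hre1 h7
      rw [← h8]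
      exact hre2
    tfae_have 3 → 4 := fun h7 => ⟨fun k => k, tendsto_natCast_atTop_atTop,
      h7.comp tendsto_natCast_atTop_atTop⟩
    tfae_have 4 → 1 := by
      rintro ⟨T, hT, h7⟩
      exact hint ρ (tendsto_nhds_unique (hre2.comp hT) h7)
    tfae_finish
  · have hA : Complex.exp (-(ρ₀ * Lam γ)) / (c * badValue S α i) ≠ 0 :=
      div_ne_zero (Complex.exp_ne_zero _) (mul_ne_zero hc hb)
    rw [← hWf] at h4
    constructor
    · intro h7
      obtain ⟨h8, h9⟩ := Pool.Agent.N41.RM.order_of_lim hmer1 hB h7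
      have h10 : ρ₀ = ρ := by
        rw [h1] at h8
        exact_mod_cast h8
      have h11 : c = B := by rw [← h2, h9]
      subst h10 h11
      exact ⟨fun k => k, tendsto_natCast_atTop_atTop, h4.comp tendsto_natCast_atTop_atTop⟩
    · rintro ⟨T, hT, h7⟩
      obtain ⟨h8, h9⟩ := Pool.Agent.Run7.h453.PC.iff_c hA
        (div_ne_zero (Complex.exp_ne_zero _) (mul_ne_zero hB hb)) h4 hT h7
      subst h8
      have h10 : c = B := by
        have e1 := Complex.exp_ne_zero (-((ρ₀ : ℂ) * Lam γ))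
        rw [div_eq_div_iff (mul_ne_zero hc hb) (mul_ne_zero hB hb)] at h9
        have e2 := mul_left_cancel₀ e1 h9
        exact (mul_right_cancel₀ hb e2).symm
      rw [← h10]
      exact hlead

end Pool.Agent.Results.MP_6dc9d1_nt.PointCountForm
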