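import Pool.Agent.Run7.h453.PC.AV

/-!
# The leading-term formula of Birch and Swinnerton-Dyer for abelian varieties in terms of numbers of points

Let `A` be an abelian variety of dimension `g` over a number field `K` (over `ℚ` in the question), `S` a finite
set of primes containing those of bad reduction and `L(A, s) = ∏_{v ∉ S} P_v(q_v^{-s})⁻¹` as in the question,
without factors at the primes in `S`.  Let `N_{v,k}` be the number of the points of `A` over the extension of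
degree `k` of the residue field of `v`, `q = q_v`.  For `γ > π/2`, with the weight
`ω_T(t) = exp(iγ t / T) / Γ(1 + t / T)`, put

* `W₁(T) = ∑_v log (N_{v,1} / q^g) ω_T(log q)`;
* `W₂(T) = W₁(T) + ∑_v 1/2 log (N_{v,2} / q^{2g}) (ω_T(2 log q) - ω_T(log q))`;
* `W(T) = ∑_v ∑_{k ≥ 1} 1/k log (N_{v,k} / q^{gk}) ∑_{de = k} μ(d) ω_T(e log q)`.

These are logarithms of products of powers of the numbers `N_{v,k} / q^{gk}`; all three series converge
absolutely.  Assume only that `L(A, s)` has a meromorphic continuation `F` to the points of the real segment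
`[1, 3/2]`; nothing is assumed about zeros or about a functional equation.  Let `r` be the order and `c` the
leading coefficient of `F` at `1`, and `Z` the number of its zeros minus the number of its poles in `(1, ∞)`.
Then

* `W(T) = r (log T - Λ_γ) - log |c| + π i Z + O(1/T)`, `W₂(T)` is the same with `o(1)` instead of `O(1/T)`, and
  `W₁(T) = r log T + O(1)`;
* for every integer `ρ` (for example the rank of `A(K)`) and every `B ≠ 0` (for example the value predicted
  by the conjecture), `lim_{s → 1} (s - 1)^{-ρ} F(s) = B` if and only if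
  `exp W₂(T_k) / T_k^ρ → e^{-ρ Λ_γ} / B` for one sequence `T_k → ∞`;
* `r = ρ` if and only if `Re W₁(T_k) / log T_k → ρ` for one sequence: this is a form of the original product of
  Birch and Swinnerton-Dyer which involves only the numbers `N_{v,1}` and is equivalent to the rank formula.
-/

set_option autoImplicit false

open Filter Topology Set NumberField IsDedekindDomain

namespace Pool.Agent.Results.MP_dfae13_nt.PointCountLeadingTerm

variable {K : Type} [Field K] [NumberField K] {n : ℕ}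

/-- The residue field of the prime `v`. -/
noncomputable instance residueField (v : HeightOneSpectrum (𝓞 K)) : Field (𝓞 K ⧸ v.asIdeal) :=
  Pool.Agent.R409.RA.fieldQuot v

/-- For the projective scheme defined by the homogeneous polynomials `X` with coefficients in the integers of
`K`: `q^k - 1` times the number of its points with coordinates in the field with `q^k` elements, `q` the norm
of `v`, namely the number of the nonzero solutions, in the algebraic closure of the residue field of `v`, with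
`x^(q^k) = x` for all coordinates. -/
noncomputable def cone (X : Set (MvPolynomial (Fin n) (𝓞 K))) (v : HeightOneSpectrum (𝓞 K))
    (k : ℕ) : ℕ :=
  Nat.card {u : Fin n → AlgebraicClosure (𝓞 K ⧸ v.asIdeal) // u ≠ 0 ∧
    (∀ j, u j ^ (Ideal.absNorm v.asIdeal ^ k) = u j) ∧
    ∀ f ∈ X, MvPolynomial.eval₂ ((algebraMap (𝓞 K ⧸ v.asIdeal)
      (AlgebraicClosure (𝓞 K ⧸ v.asIdeal))).comp (Ideal.Quotient.mk v.asIdeal)) u f = 0}

/-- `N_{v,k}`, the number of the points over the extension of degree `k` of the residue field of `v`. -/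
noncomputable def points (X : Set (MvPolynomial (Fin n) (𝓞 K))) (v : HeightOneSpectrum (𝓞 K))
    (k : ℕ) : ℝ :=
  (cone X v k : ℝ) / ((Ideal.absNorm v.asIdeal : ℝ) ^ k - 1)

/-- `α_1, …, α_{2g}` are the eigenvalues of the geometric Frobenius at `v` on the first cohomology of the
abelian variety of dimension `g` defined by `X`: the zeros of a polynomial with integral coefficients, of
absolute value `q^{1/2}`, with `N_{v,k} = ∏_j (1 - α_j^k)` for all `k ≥ 1`. -/
def IsFrobenius (X : Set (MvPolynomial (Fin n) (𝓞 K))) (g : ℕ) (v : HeightOneSpectrum (𝓞 K))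
    (α : Fin (2 * g) → ℂ) : Prop :=
  (∃ P : Polynomial ℤ, P.map (Int.castRingHom ℂ) = ∏ j, (Polynomial.X - Polynomial.C (α j))) ∧
    (∀ j, ‖α j‖ = √(Ideal.absNorm v.asIdeal)) ∧
    ∀ k : ℕ, 1 ≤ k → (points X v k : ℂ) = ∏ j, (1 - α j ^ k)

open Classical in
/-- `F(s)` is `L(A, s) = ∏_{v ∉ S} ∏_j (1 - α_{v,j} q_v^{-s})⁻¹` for `Re s > 3/2`, with the eigenvalues
`α_{v,j}` of Frobenius, and it is meromorphic at the points of the real segment `[1, 3/2]`. -/
structure IsLFunction (X : Set (MvPolynomial (Fin n) (𝓞 K))) (g : ℕ)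
    (S : Finset (HeightOneSpectrum (𝓞 K))) (α : HeightOneSpectrum (𝓞 K) → Fin (2 * g) → ℂ)
    (F : ℂ → ℂ) : Prop where
  good : ∀ v ∉ S, IsFrobenius X g v (α v)
  mero : ∀ x : ℝ, 1 ≤ x → x ≤ 3 / 2 → MeromorphicAt F (x : ℂ)
  prod : ∀ s : ℂ, 3 / 2 < s.re → F s = ∏' v : HeightOneSpectrum (𝓞 K),
    if v ∈ S then 1 else ∏ j, (1 - α v j * (Ideal.absNorm v.asIdeal : ℂ) ^ (-s))⁻¹

/-- The weight `ω_T(t) = exp(iγ t / T) / Γ(1 + t / T)`. -/
noncomputable def weight (γ T t : ℝ) : ℂ :=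
  Complex.exp ((γ * (t / T) : ℝ) * Complex.I) * ((Real.Gamma (1 + t / T))⁻¹ : ℝ)

/-- `∑_{de = k} μ(d) ω_T(e t)`, in particular `ω_T(t)` for `k = 1` and `ω_T(2t) - ω_T(t)` for `k = 2`. -/
noncomputable def mobWeight (γ T t : ℝ) (k : ℕ) : ℂ :=
  ∑ x ∈ k.divisorsAntidiagonal, ((ArithmeticFunction.moebius x.1 : ℤ) : ℂ) * weight γ T (x.2 * t)

open Classical in
/-- The term of `W(T)` for the prime `v = x.1` and the degree `k = x.2 + 1`. -/
noncomputable def term (X : Set (MvPolynomial (Fin n) (𝓞 K))) (g : ℕ)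
    (S : Finset (HeightOneSpectrum (𝓞 K))) (γ T : ℝ) (x : HeightOneSpectrum (𝓞 K) × ℕ) : ℂ :=
  if x.1 ∈ S then 0 else
    (Real.log (points X x.1 (x.2 + 1) / (Ideal.absNorm x.1.asIdeal : ℝ) ^ (g * (x.2 + 1))) : ℂ) /
      ((x.2 + 1 : ℕ) : ℂ) * mobWeight γ T (Real.log (Ideal.absNorm x.1.asIdeal)) (x.2 + 1)

/-- `W(T)` -/
noncomputable def W (X : Set (MvPolynomial (Fin n) (𝓞 K))) (g : ℕ)
    (S : Finset (HeightOneSpectrum (𝓞 K))) (γ T : ℝ) : ℂ := ∑' x, term X g S γ T x

/-- `W₂(T)`, the part of `W(T)` with `k = 1, 2`. -/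
noncomputable def W₂ (X : Set (MvPolynomial (Fin n) (𝓞 K))) (g : ℕ)
    (S : Finset (HeightOneSpectrum (𝓞 K))) (γ T : ℝ) : ℂ :=
  ∑' x : HeightOneSpectrum (𝓞 K) × ℕ, if x.2 < 2 then term X g S γ T x else 0

open Classical in
/-- `W₁(T) = ∑_v log (N_{v,1} / q^g) ω_T(log q)`, the part of `W(T)` with `k = 1`. -/
noncomputable def W₁ (X : Set (MvPolynomial (Fin n) (𝓞 K))) (g : ℕ)
    (S : Finset (HeightOneSpectrum (𝓞 K))) (γ T : ℝ) : ℂ :=
  ∑' v : HeightOneSpectrum (𝓞 K), if v ∈ S then 0 else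
    (Real.log (points X v 1 / (Ideal.absNorm v.asIdeal : ℝ) ^ g) : ℂ) *
      weight γ T (Real.log (Ideal.absNorm v.asIdeal))

/-- `Λ_γ = ∫_0^∞ (e^{-u} - e^{iγu} / Γ(1 + u)) du / u` -/
noncomputable def Lam (γ : ℝ) : ℂ := ∫ u in Set.Ioi (0 : ℝ),
  (Complex.exp (-(u : ℂ)) - Complex.exp ((γ * u : ℝ) * Complex.I) * ((Real.Gamma (1 + u))⁻¹ : ℝ)) / u

/-- `Z`, the number of the zeros minus the number of the poles of `F` in the interval `(1, ∞)`, counted with
multiplicity. -/
noncomputable def excess (F : ℂ → ℂ) : ℤ :=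
  ∑ᶠ x ∈ Set.Ioi (1 : ℝ), (meromorphicOrderAt F (x : ℂ)).untop₀

/-- `F` has the order `ρ` and the leading coefficient `B` at `1`. -/
def Leading (F : ℂ → ℂ) (ρ : ℤ) (B : ℂ) : Prop :=
  Tendsto (fun s : ℂ => (s - 1) ^ (-ρ) * F s) (𝓝[≠] (1 : ℂ)) (𝓝 B)

/-- The main term `ρ (log T - Λ_γ) - log |B| + π i Z`. -/
noncomputable def mainTerm (F : ℂ → ℂ) (ρ : ℤ) (B : ℝ) (γ T : ℝ) : ℂ :=
  ρ * (Real.log T - Lam γ) - Real.log |B| + Real.pi * excess F * Complex.I

section proof

variable {g : ℕ} {X : Set (MvPolynomial (Fin n) (𝓞 K))} {S : Finset (HeightOneSpectrum (𝓞 K))}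
  {α : HeightOneSpectrum (𝓞 K) → Fin (2 * g) → ℂ} {F : ℂ → ℂ}

theorem stable {v : HeightOneSpectrum (𝓞 K)} {β : Fin (2 * g) → ℂ} (h : IsFrobenius X g v β) :
    Finset.univ.val.map (fun j => (starRingEnd ℂ) (β j)) = Finset.univ.val.map β := by
  obtain ⟨P, hP⟩ := h.1
  refine Pool.Agent.N41.RM.conj_stable ⟨P.map (Int.castRingHom ℝ), ?_⟩
  rw [← hP, Polynomial.map_map]
  congr 1

theorem IsLFunction.norm (h : IsLFunction X g S α F) (v : HeightOneSpectrum (𝓞 K)) (j : Fin (2 * g)) :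
    ‖Pool.Agent.N41.RM.ext S α v j‖ ≤ (Ideal.absNorm v.asIdeal : ℝ) ^ (((1 : ℕ) : ℝ) / 2) := by
  unfold Pool.Agent.N41.RM.ext
  split_ifs with hv
  · rw [norm_zero]
    positivity
  · rw [(h.good v hv).2.1 j, Real.sqrt_eq_rpow, Nat.cast_one]

theorem IsLFunction.re (h : IsLFunction X g S α F) (v : HeightOneSpectrum (𝓞 K)) (k : ℕ) :
    (∑ j, Pool.Agent.N41.RM.ext S α v j ^ (k + 1)).im = 0 := by
  unfold Pool.Agent.N41.RM.ext
  split_ifs with hv
  · simp
  · exact Pool.Agent.N41.RM.psum_real_of_stable (stable (h.good v hv)) _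

theorem IsLFunction.mero' (h : IsLFunction X g S α F) (x : ℝ) (h1 : ((1 : ℕ) : ℝ) ≤ x)
    (h2 : x ≤ ((1 : ℕ) : ℝ) + 1 / 2) : MeromorphicAt F (x : ℂ) := by
  push_cast at h1 h2
  exact h.mero x h1 (by linarith)

theorem IsLFunction.prod' (h : IsLFunction X g S α F) (s : ℂ)
    (hs : ((1 : ℕ) : ℝ) + 1 / 2 < s.re) : F s = ∏' v : HeightOneSpectrum (𝓞 K),
      ∏ j, (1 - Pool.Agent.N41.RM.ext S α v j * (Ideal.absNorm v.asIdeal : ℂ) ^ (-s))⁻¹ := by
  push_cast at hs
  rw [h.prod s (by linarith)]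
  refine tprod_congr fun v => ?_
  unfold Pool.Agent.N41.RM.ext
  split_ifs with hv
  · simp
  · rfl

/-- the normalised parameters -/
noncomputable abbrev aa (S : Finset (HeightOneSpectrum (𝓞 K)))
    (α : HeightOneSpectrum (𝓞 K) → Fin (2 * g) → ℂ) : HeightOneSpectrum (𝓞 K) → Fin (2 * g) → ℂ :=
  Pool.Agent.N41.RM.av 1 (Pool.Agent.N41.RM.ext S α)

theorem log_eq (h : IsLFunction X g S α F) {v : HeightOneSpectrum (𝓞 K)} (hv : v ∉ S) (k : ℕ) :
    (Real.log (points X v (k + 1) / (Ideal.absNorm v.asIdeal : ℝ) ^ (g * (k + 1))) : ℂ) =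
      ∑ j, Complex.log (1 - aa S α v j ^ (k + 1)) := by
  have hq : (2 : ℝ) ≤ Ideal.absNorm v.asIdeal := Pool.Agent.R409.RA.two_le v
  obtain ⟨h1, h2, h3⟩ := h.good v hv
  have h4 : 0 ≤ points X v (k + 1) := by
    unfold points
    refine div_nonneg (Nat.cast_nonneg _) ?_
    have : 1 ≤ (Ideal.absNorm v.asIdeal : ℝ) ^ (k + 1) := one_le_pow₀ (by linarith)
    linarith
  rw [Pool.Agent.N41.RM.log_points_pow (q := Ideal.absNorm v.asIdeal) (by linarith) h2
    (stable (h.good v hv)) (e := k + 1) (by omega) h4 (h3 (k + 1) (by omega))]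
  refine Finset.sum_congr rfl fun j _ => ?_
  unfold aa Pool.Agent.N41.RM.av Pool.Agent.N41.RM.ext
  rw [if_neg hv, pow_one]
  push_cast
  rfl

theorem term_eq (h : IsLFunction X g S α F) (γ T : ℝ) (x : HeightOneSpectrum (𝓞 K) × ℕ) :
    term X g S γ T x =
      Pool.Agent.N41.RM.pterm (Pool.Agent.N41.RM.qv (K := K)) (aa S α) γ T x := by
  unfold term
  split_ifs with hv
  · have h1 : ∀ j, aa S α x.1 j = 0 := by
      intro j
      unfold aa Pool.Agent.N41.RM.av Pool.Agent.N41.RM.ext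
      rw [if_pos hv, zero_div]
    unfold Pool.Agent.N41.RM.pterm
    simp only [h1]
    rw [zero_pow (by omega)]
    simp
  · rw [log_eq h hv]
    rfl

theorem W_eq (h : IsLFunction X g S α F) (γ : ℝ) {T : ℝ} (hT : 0 < T)
    (E : Pool.Agent.N41.RM.EN (Pool.Agent.N41.RM.qv (K := K)) (aa S α)) :
    W X g S γ T = Pool.Agent.N41.RM.rmn (Pool.Agent.N41.RM.qv (K := K)) (aa S α) γ T := by
  rw [← E.tsum_pterm γ hT]
  exact tsum_congr fun x => term_eq h γ T x

theorem W₂_eq (h : IsLFunction X g S α F) (γ T : ℝ) :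
    W₂ X g S γ T = Pool.Agent.Run7.h453.PC.plow (Pool.Agent.N41.RM.qv (K := K)) (aa S α) γ T :=
  tsum_congr fun x => by rw [term_eq h γ T x]

theorem W₁_term (X : Set (MvPolynomial (Fin n) (𝓞 K))) (g : ℕ)
    (S : Finset (HeightOneSpectrum (𝓞 K))) (γ T : ℝ) (v : HeightOneSpectrum (𝓞 K)) :
    term X g S γ T (v, 0) = open Classical in if v ∈ S then 0 else
      (Real.log (points X v 1 / (Ideal.absNorm v.asIdeal : ℝ) ^ g) : ℂ) *
        weight γ T (Real.log (Ideal.absNorm v.asIdeal)) := by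
  unfold term
  split_ifs
  · rfl
  · simp [mobWeight]

theorem W₁_eq (h : IsLFunction X g S α F) (γ T : ℝ) :
    W₁ X g S γ T = Pool.Agent.Run7.h453.PC.pone (Pool.Agent.N41.RM.qv (K := K)) (aa S α) γ T :=
  tsum_congr fun v => by rw [← term_eq h γ T (v, 0), W₁_term]

theorem excess_eq : Pool.Agent.N41.RM.excess F ((1 : ℕ) : ℝ) = excess F := by
  unfold Pool.Agent.N41.RM.excess excess
  push_cast
  rfl

end proof

/-- **Theorem.** Let `F(s) = L(A, s)` for an abelian variety `A` of dimension `g` over a number field `K`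
(`IsLFunction`), and `γ > π/2`.

* `W(T)` converges absolutely for `T > 0`; `F` is not identically zero near the points of the ray `[1, ∞)` and
  has only finitely many zeros and poles there; if it has no poles on `(1, ∞)`, then `Z ≥ 0`, and `Z = 0` if and
  only if it has no zeros there.
* There are the order `ρ` and the leading coefficient `c`, a real number different from `0`, of `F` at `1`, such
  that `W(T) = ρ (log T - Λ_γ) - log |c| + π i Z + O(1/T)`,
  `W₂(T) = ρ (log T - Λ_γ) - log |c| + π i Z + o(1)` and `W₁(T) = ρ log T + O(1)`.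
* For every integer `ρ` the following are equivalent: `ord_{s=1} F = ρ`; `Re W₁(T) / log T → ρ`;
  `Re W₁(T_k) / log T_k → ρ` for one sequence `T_k → ∞`.
* For every integer `ρ` and complex `B ≠ 0`, `lim_{s → 1} (s - 1)^{-ρ} F(s) = B` if and only if
  `exp (W₂(T_k)) / T_k^ρ → e^{-ρ Λ_γ} / B` for one sequence `T_k → ∞`.
* For every integer `ρ` and real `B > 0`, `ord_{s=1} F = ρ` and `lim_{s → 1} |(s - 1)^{-ρ} F(s)| = B` if and only if
  `exp (Re W₂(T_k)) / T_k^ρ → e^{-ρ Re Λ_γ} / B` for one sequence `T_k → ∞`. -/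
theorem result (K : Type) [Field K] [NumberField K] (n g : ℕ)
    (X : Set (MvPolynomial (Fin n) (𝓞 K))) (S : Finset (HeightOneSpectrum (𝓞 K)))
    (α : HeightOneSpectrum (𝓞 K) → Fin (2 * g) → ℂ) (F : ℂ → ℂ) (h : IsLFunction X g S α F)
    (γ : ℝ) (hγ : Real.pi / 2 < γ) :
    ((∀ T : ℝ, 0 < T → Summable fun x => ‖term X g S γ T x‖) ∧
      (∀ x : ℝ, 1 ≤ x → meromorphicOrderAt F (x : ℂ) ≠ ⊤) ∧
      {x : ℝ | 1 ≤ x ∧ meromorphicOrderAt F (x : ℂ) ≠ 0}.Finite ∧
      ((∀ x : ℝ, 1 < x → 0 ≤ meromorphicOrderAt F (x : ℂ)) → 0 ≤ excess F ∧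
        (excess F = 0 ↔ ∀ x : ℝ, 1 < x → meromorphicOrderAt F (x : ℂ) = 0))) ∧
    (∃ (ρ : ℤ) (c M : ℝ), meromorphicOrderAt F 1 = ρ ∧ c ≠ 0 ∧ Leading F ρ c ∧
      (fun T : ℝ => W X g S γ T - mainTerm F ρ c γ T) =O[atTop] (fun T : ℝ => 1 / T) ∧
      Tendsto (fun T : ℝ => W₂ X g S γ T - mainTerm F ρ c γ T) atTop (𝓝 0) ∧
      ∀ᶠ T : ℝ in atTop, ‖W₁ X g S γ T - ρ * Real.log T‖ ≤ M) ∧
    (∀ ρ : ℤ, List.TFAE [
      meromorphicOrderAt F 1 = ρ,
      Tendsto (fun T : ℝ => (W₁ X g S γ T).re / Real.log T) atTop (𝓝 ρ),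
      ∃ T : ℕ → ℝ, Tendsto T atTop atTop ∧
        Tendsto (fun k => (W₁ X g S γ (T k)).re / Real.log (T k)) atTop (𝓝 ρ)]) ∧
    (∀ (ρ : ℤ) (B : ℂ), B ≠ 0 → (Leading F ρ B ↔
      ∃ T : ℕ → ℝ, Tendsto T atTop atTop ∧
        Tendsto (fun k => Complex.exp (W₂ X g S γ (T k)) / (T k : ℂ) ^ ρ) atTop
          (𝓝 (Complex.exp (-(ρ * Lam γ)) / B)))) ∧
    ∀ (ρ : ℤ) (B : ℝ), 0 < B → ((meromorphicOrderAt F 1 = ρ ∧
        Tendsto (fun s : ℂ => ‖(s - 1) ^ (-ρ) * F s‖) (𝓝[≠] (1 : ℂ)) (𝓝 B)) ↔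
      ∃ T : ℕ → ℝ, Tendsto T atTop atTop ∧
        Tendsto (fun k => Real.exp (W₂ X g S γ (T k)).re / T k ^ ρ) atTop
          (𝓝 (Real.exp (-(ρ * (Lam γ).re)) / B))) := by
  have hi : 1 + 1 = 2 * 1 := rfl
  have hn := h.norm
  have hr := h.re
  have E := Pool.Agent.N41.RM.en_nf (m := 1) hi hn hr
  obtain ⟨ρ₀, c, h1, h2, hc, h3, -⟩ := Pool.Agent.N41.RM.nf_law (m := 1)
    (F := F) hi hn hr h.mero' h.prod' hγ
  obtain ⟨h5, h6⟩ := Pool.Agent.Run7.h453.PC.ray_finite (m := 1) (F := F) hi hn hr h.mero' h.prod'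
  have h0 := Pool.Agent.Run7.h453.PC.excess_zero_iff (m := 1) h5 h6
  rw [excess_eq] at h3 h0
  have hmer1 : MeromorphicAt F 1 := by
    have := h.mero 1 le_rfl (by norm_num)
    rwa [Complex.ofReal_one] at this
  rw [Nat.cast_one] at h1 h2 h5 h6 h0
  have hlead : Leading F ρ₀ c := Pool.Agent.N41.RM.lim_of_order hmer1 h1 h2
  have hLam : Pool.Agent.W187.UR.Lam γ = Lam γ := rfl
  rw [hLam] at h3
  have hcc : (c : ℂ) ≠ 0 := by exact_mod_cast hc
  have hWlaw : (fun T : ℝ => W X g S γ T - mainTerm F ρ₀ c γ T) =O[atTop]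
      (fun T : ℝ => 1 / T) := by
    refine h3.congr' ?_ (Filter.EventuallyEq.refl _ _)
    filter_upwards [eventually_gt_atTop (0 : ℝ)] with T hT
    rw [W_eq h γ hT E]
    rfl
  have ht1 : Tendsto (fun T : ℝ => Pool.Agent.N41.RM.rmn (Pool.Agent.N41.RM.qv (K := K)) (aa S α) γ T
      - mainTerm F ρ₀ c γ T) atTop (𝓝 0) := by
    refine h3.trans_tendsto ?_
    exact tendsto_const_nhds.div_atTop tendsto_id
  have ht2 : Tendsto (fun T : ℝ => W₂ X g S γ T - mainTerm F ρ₀ c γ T) atTop (𝓝 0) := by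
    have e1 := Pool.Agent.Run7.h453.PC.plow_law E ht1
    refine e1.congr fun T => ?_
    rw [W₂_eq h γ T]
  -- the product form
  have hexp : Tendsto (fun T : ℝ => Complex.exp (W₂ X g S γ T) / (T : ℂ) ^ ρ₀) atTop
      (𝓝 (Complex.exp (-(ρ₀ * Lam γ)) / c)) := by
    have e1 : Tendsto (fun T : ℝ => Complex.exp (W₂ X g S γ T - mainTerm F ρ₀ c γ T)) atTop
        (𝓝 1) := by
      have := (Complex.continuous_exp.tendsto 0).comp ht2
      simpa [Function.comp_def] using this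
    -- the exact value of the limit from the law for the full mean
    have e2 : Tendsto (fun T : ℝ => Complex.exp (W X g S γ T) / (T : ℂ) ^ ρ₀) atTop
        (𝓝 (Complex.exp (-(ρ₀ * Lam γ)) / c)) := by
      obtain ⟨ρ₁, c₁, g1, g2, -, -, g4⟩ := Pool.Agent.N41.RM.nf_law (m := 1)
        (F := F) hi hn hr h.mero' h.prod' hγ
      rw [Nat.cast_one] at g1 g2
      have e3 : ρ₁ = ρ₀ := by
        rw [h1] at g1
        exact (by exact_mod_cast g1 : ρ₀ = ρ₁).symm
      have e4 : (c₁ : ℂ) = c := by rw [← g2, h2]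
      subst e3
      rw [e4] at g4
      refine g4.congr' ?_
      filter_upwards [eventually_gt_atTop (0 : ℝ)] with T hT
      rw [W_eq h γ hT E]
    have e3 : Tendsto (fun T : ℝ => W₂ X g S γ T - W X g S γ T) atTop (𝓝 0) := by
      have e4 : Tendsto (fun T : ℝ => W X g S γ T - mainTerm F ρ₀ c γ T) atTop (𝓝 0) := by
        refine hWlaw.trans_tendsto ?_
        exact tendsto_const_nhds.div_atTop tendsto_id
      have e5 := ht2.sub e4
      rw [sub_zero] at e5
      refine e5.congr fun T => ?_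
      ring
    have e6 := ((Complex.continuous_exp.tendsto 0).comp e3).mul e2
    rw [Complex.exp_zero, one_mul] at e6
    refine e6.congr fun T => ?_
    simp only [Function.comp_apply]
    rw [Complex.exp_sub]
    have := Complex.exp_ne_zero (W X g S γ T)
    field_simp
  -- the part `k = 1`
  obtain ⟨M, hM⟩ := Pool.Agent.Run7.h453.PC.ptwo_bdd (K := K) E γ
  have hbd : ∃ M₁ : ℝ, ∀ᶠ T : ℝ in atTop, ‖W₁ X g S γ T - ρ₀ * Real.log T‖ ≤ M₁ := by
    refine ⟨M + (1 + ‖(-(ρ₀ * Lam γ) - Real.log |c| + Real.pi * excess F * Complex.I : ℂ)‖), ?_⟩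
    have e1 : ∀ᶠ T : ℝ in atTop, ‖W₂ X g S γ T - mainTerm F ρ₀ c γ T‖ ≤ 1 := by
      have := ht2.norm
      rw [norm_zero] at this
      exact (this.eventually_lt_const one_pos).mono fun T hT => hT.le
    filter_upwards [hM, e1, eventually_gt_atTop (0 : ℝ)] with T hT1 hT2 hT3
    have e2 := Pool.Agent.Run7.h453.PC.plow_eq E γ hT3
    rw [← W₂_eq h γ T, ← W₁_eq h γ T] at e2
    have e3 : W₁ X g S γ T - ρ₀ * Real.log T = -(∑' v, Pool.Agent.N41.RM.pterm
        (Pool.Agent.N41.RM.qv (K := K)) (aa S α) γ T (v, 1)) +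
        ((W₂ X g S γ T - mainTerm F ρ₀ c γ T) +
        (-(ρ₀ * Lam γ) - Real.log |c| + Real.pi * excess F * Complex.I)) := by
      rw [e2]
      unfold mainTerm
      ring
    rw [e3]
    refine (norm_add_le _ _).trans ?_
    rw [norm_neg]
    exact add_le_add hT1 ((norm_add_le _ _).trans (by gcongr))
  obtain ⟨M₁, hM₁⟩ := hbd
  have hre1 : Tendsto (fun T : ℝ => (W₁ X g S γ T).re / Real.log T) atTop (𝓝 ρ₀) := by
    have e1 : Tendsto (fun T : ℝ => M₁ / Real.log T) atTop (𝓝 0) :=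
      tendsto_const_nhds.div_atTop Real.tendsto_log_atTop
    have e2 : Tendsto (fun T : ℝ => (W₁ X g S γ T).re / Real.log T - ρ₀) atTop (𝓝 0) := by
      refine squeeze_zero_norm' ?_ e1
      filter_upwards [hM₁, eventually_gt_atTop (1 : ℝ)] with T hT hT1
      have hlog : 0 < Real.log T := Real.log_pos hT1
      rw [Real.norm_eq_abs, div_sub' hlog.ne', abs_div, abs_of_pos hlog]
      refine div_le_div_of_nonneg_right ?_ hlog.le
      have e3 := (Complex.abs_re_le_norm (W₁ X g S γ T - ρ₀ * Real.log T)).trans hT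
      have e4 : (W₁ X g S γ T - ρ₀ * Real.log T).re = (W₁ X g S γ T).re - Real.log T * ρ₀ := by
        have e5 : (ρ₀ : ℂ) * (Real.log T : ℂ) = ((Real.log T * ρ₀ : ℝ) : ℂ) := by
          push_cast
          ring
        rw [e5, Complex.sub_re, Complex.ofReal_re]
      rwa [e4] at e3
    have e3 := e2.add_const (ρ₀ : ℝ)
    simpa using e3
  refine ⟨⟨fun T hT => ?_, h5, h6, h0⟩, ⟨ρ₀, c, M₁, h1, hc, hlead, hWlaw, ht2, hM₁⟩, fun ρ => ?_,
    fun ρ B hB => ?_, fun ρ B hB => ?_⟩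
  · refine (E.pterm_summable γ hT).congr fun x => ?_
    rw [term_eq h]
  · tfae_have 1 → 2 := by
      intro h7
      rw [h1] at h7
      have h8 : ρ₀ = ρ := by exact_mod_cast h7
      rw [← h8]
      exact hre1
    tfae_have 2 → 3 := fun h7 => ⟨fun k => k, tendsto_natCast_atTop_atTop,
      h7.comp tendsto_natCast_atTop_atTop⟩
    tfae_have 3 → 1 := by
      rintro ⟨T, hT, h7⟩
      have h8 := tendsto_nhds_unique (hre1.comp hT) h7
      rw [h1]
      exact_mod_cast h8
    tfae_finish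
  · have hA : Complex.exp (-(ρ₀ * Lam γ)) / (c : ℂ) ≠ 0 := div_ne_zero (Complex.exp_ne_zero _) hcc
    constructor
    · intro h7
      obtain ⟨h8, h9⟩ := Pool.Agent.N41.RM.order_of_lim hmer1 hB h7
      have h10 : ρ₀ = ρ := by
        rw [h1] at h8
        exact_mod_cast h8
      have h11 : (c : ℂ) = B := by rw [← h2, h9]
      subst h10
      rw [← h11]
      exact ⟨fun k => k, tendsto_natCast_atTop_atTop, hexp.comp tendsto_natCast_atTop_atTop⟩
    · rintro ⟨T, hT, h7⟩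
      obtain ⟨h8, h9⟩ := Pool.Agent.Run7.h453.PC.iff_c hA
        (div_ne_zero (Complex.exp_ne_zero _) hB) hexp hT h7
      subst h8
      have h10 : (c : ℂ) = B := by
        have e1 := Complex.exp_ne_zero (-((ρ₀ : ℂ) * Lam γ))
        rw [div_eq_div_iff hcc hB] at h9
        exact (mul_left_cancel₀ e1 h9).symm
      rw [← h10]
      exact hlead
  · have hnorm : Tendsto (fun T : ℝ => Complex.exp (((W₂ X g S γ T).re : ℝ) : ℂ) / (T : ℂ) ^ ρ₀) atTop
        (𝓝 ((Real.exp (-(ρ₀ * (Lam γ).re)) / |c| : ℝ) : ℂ)) := by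
      have e1 := (Complex.continuous_ofReal.tendsto _).comp hexp.norm
      have e2 : ‖Complex.exp (-(ρ₀ * Lam γ)) / (c : ℂ)‖ = Real.exp (-(ρ₀ * (Lam γ).re)) / |c| := by
        rw [norm_div, Complex.norm_exp, Complex.norm_real, Real.norm_eq_abs]
        congr 2
        have e3 : ((ρ₀ : ℂ) * Lam γ).re = ρ₀ * (Lam γ).re := by
          have e4 : (ρ₀ : ℂ) = ((ρ₀ : ℝ) : ℂ) := by push_cast; rfl
          rw [e4, Complex.re_ofReal_mul]
        rw [Complex.neg_re, e3]
      rw [e2] at e1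
      refine e1.congr' ?_
      filter_upwards [eventually_gt_atTop (0 : ℝ)] with T hT
      simp only [Function.comp_apply]
      rw [norm_div, Complex.norm_exp, norm_zpow, Complex.norm_real, Real.norm_eq_abs, abs_of_pos hT]
      push_cast
      rfl
    have hcpos : 0 < |c| := abs_pos.2 hc
    have hA : ((Real.exp (-(ρ₀ * (Lam γ).re)) / |c| : ℝ) : ℂ) ≠ 0 := by
      have : 0 < Real.exp (-(ρ₀ * (Lam γ).re)) / |c| := div_pos (Real.exp_pos _) hcpos
      exact_mod_cast this.ne'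
    have hleadn : Tendsto (fun s : ℂ => ‖(s - 1) ^ (-ρ₀) * F s‖) (𝓝[≠] (1 : ℂ)) (𝓝 |c|) := by
      have e1 := hlead.norm
      rwa [Complex.norm_real, Real.norm_eq_abs] at e1
    constructor
    · rintro ⟨h7, h8⟩
      have h10 : ρ₀ = ρ := by
        rw [h1] at h7
        exact_mod_cast h7
      subst h10
      have h11 : |c| = B := tendsto_nhds_unique hleadn h8
      refine ⟨fun k => k, tendsto_natCast_atTop_atTop, ?_⟩
      rw [← h11]
      have e1 := (Complex.continuous_re.tendsto _).comp (hnorm.comp tendsto_natCast_atTop_atTop)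
      rw [Complex.ofReal_re] at e1
      refine e1.congr fun k => ?_
      simp only [Function.comp_apply]
      have e2 : Complex.exp (((W₂ X g S γ (k : ℝ)).re : ℝ) : ℂ) / (((k : ℝ) : ℂ)) ^ ρ₀ =
        ((Real.exp (W₂ X g S γ (k : ℝ)).re / (k : ℝ) ^ ρ₀ : ℝ) : ℂ) := by
        push_cast
        rfl
      rw [e2, Complex.ofReal_re]
    · rintro ⟨T, hT, h7⟩
      have hB' : ((Real.exp (-(ρ * (Lam γ).re)) / B : ℝ) : ℂ) ≠ 0 := by
        have : 0 < Real.exp (-(ρ * (Lam γ).re)) / B := div_pos (Real.exp_pos _) hB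
        exact_mod_cast this.ne'
      obtain ⟨h8, h9⟩ := Pool.Agent.Run7.h453.PC.iff_c (W := fun T => (((W₂ X g S γ T).re : ℝ) : ℂ))
        (r := ρ) hA hB' hnorm hT (by
          refine ((Complex.continuous_ofReal.tendsto _).comp h7).congr fun k => ?_
          simp only [Function.comp_apply]
          push_cast
          rfl)
      subst h8
      have h10 : |c| = B := by
        have e0 : Real.exp (-(ρ₀ * (Lam γ).re)) / |c| = Real.exp (-(ρ₀ * (Lam γ).re)) / B := by
          exact_mod_cast h9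
        have e1 := (Real.exp_pos (-((ρ₀ : ℝ) * (Lam γ).re))).ne'
        rw [div_eq_div_iff hcpos.ne' hB.ne'] at e0
        exact (mul_left_cancel₀ e1 e0).symm
      rw [← h10]
      exact ⟨h1, hleadn⟩

end Pool.Agent.Results.MP_dfae13_nt.PointCountLeadingTerm
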