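import Pool.Agent.Run7.h453.FG.Crit
import Pool.Agent.Run7.h453.FG.Pts

/-!
# The order of `Φ_i` over an arbitrary finitely generated field as a limit of sums over closed points

Let `K` be an infinite finitely generated field, of any characteristic, `R` a finitely generated domain with
the field of fractions `K`, `𝒴 = Spec R` and `D = dim 𝒴`.  Let `X/K` be a smooth projective geometrically
connected variety of dimension `d` with a smooth projective model over `𝒴`, and for a closed point `y` of `𝒴`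
let `q_y` be the number of elements of the residue field, and `t_{y,k}` the trace of the `k`-th power of the
geometric Frobenius at `y` on `H^i` of the fibre.  If `X` is a curve and `i = 1`, then
`t_{y,k} = q_y^k + 1 - N_{y,k}`, with the number `N_{y,k}` of the points of the fibre over the extension of
degree `k` of the residue field of `y`.  For an integer `m ≤ D + i/2`, `γ > π/2` and `T > 0` put

`W(T) = -∑_y ∑_{k ≥ 1} t_{y,k} / (k q_y^{mk}) · ω(k log q_y / T)`,   `W₁(T) = -∑_y t_{y,1} / q_y^m · ω(log q_y / T)`,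

`ω(u) = exp(iγu) / Γ(1 + u)`, absolutely convergent sums over all the closed points of `𝒴`.  Assume only
that `Φ_i` is meromorphic at the points of the real segment from `m` to `D + i/2`, where its Euler product
begins to converge; nothing is assumed about zeros or about a functional equation.  Then

`W(T) = ρ (log T - Λ_γ) - log |c| + π i Z + O(1/T)`,

with the order `ρ` and the leading coefficient `c` of `Φ_i` at `m` and the number `Z` of the zeros minus the
number of the poles of `Φ_i` in `(m, ∞)`; and if `D < 2m - i`, then the same formula holds for `W₁(T)`, with a real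
constant `κ` added and with the error `o(1)`.

The point of Tate's conjecture Q1 is `i = 1`, `m = D`.  Its rank formula for `X` is thus equivalent to
`Re W(T_k) / log T_k → rank Pic⁰_X(K)` for one sequence `T_k → ∞`, and if `D ≥ 2`, that is, if `K` is neither a
number field nor a function field of one variable over a finite field, to
`Re W₁(T_k) / log T_k → rank Pic⁰_X(K)`, which for a curve `X` involves only the numbers of the points of
the fibres over the residue fields themselves.  (The dual point is `i = 2d - 1`, `m = D + d - 1`, and the pole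
in the criterion (ii) of the question is `i = 2`, `m = D + 1`.)
-/

set_option autoImplicit false

open Filter Topology Set Polynomial

namespace Pool.Agent.Results.MP_9faec4_nt.TraceLimitFormula

variable {R : Type} [CommRing R] {n N : ℕ}

/-- `D` is the dimension of the models of the infinite finitely generated field `K`: the transcendence degree of
`K` over `ℚ` plus one in characteristic zero, and the transcendence degree over the prime field, if it is
positive, in characteristic `p`. -/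
def IsDimension (K : Type) [Field K] (D : ℕ) : Prop :=
  (∃ _ : CharZero K, Algebra.trdeg ℚ K + 1 = D) ∨
    ∃ (p : ℕ) (_ : Fact p.Prime) (_ : Algebra (ZMod p) K), Algebra.trdeg (ZMod p) K = D ∧ 1 ≤ D

/-- The residue field of the closed point `y` of `Spec R`. -/
noncomputable instance residueField (y : MaximalSpectrum R) : Field (R ⧸ y.asIdeal) :=
  Ideal.Quotient.field y.asIdeal

/-- `q_y` -/
noncomputable def norm (y : MaximalSpectrum R) : ℕ := Nat.card (R ⧸ y.asIdeal)

/-- The projective scheme over `R` defined by the homogeneous polynomials `X`: this is `q_y^k - 1` times the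
number of its points over `y` with coordinates in the field with `q_y^k` elements, namely the number of the
nonzero solutions, in the algebraic closure of the residue field of `y`, with `x^(q_y^k) = x` for all
coordinates. -/
noncomputable def cone (X : Set (MvPolynomial (Fin n) R)) (y : MaximalSpectrum R) (k : ℕ) : ℕ :=
  Nat.card {u : Fin n → AlgebraicClosure (R ⧸ y.asIdeal) // u ≠ 0 ∧
    (∀ j, u j ^ (norm y ^ k) = u j) ∧
    ∀ f ∈ X, MvPolynomial.eval₂ ((algebraMap (R ⧸ y.asIdeal)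
      (AlgebraicClosure (R ⧸ y.asIdeal))).comp (Ideal.Quotient.mk y.asIdeal)) u f = 0}

/-- `N_{y,k}`, the number of the points of the fibre of `X` over `y` over the extension of degree `k` of the
residue field of `y`. -/
noncomputable def points (X : Set (MvPolynomial (Fin n) R)) (y : MaximalSpectrum R) (k : ℕ) : ℝ :=
  (cone X y k : ℝ) / ((norm y : ℝ) ^ k - 1)

/-- `α_1, …, α_N` are the eigenvalues of the geometric Frobenius at `y` on `H^i` of the fibre, for a
geometrically connected `X` of dimension `d`: there are finite multisets `β_k` of complex numbers of absolute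
value `q_y^{k/2}`, `k = 0, …, 2d`, with `β_i = {α_1, …, α_N}`, `β_0 = {1}`, `β_{2d} = {q_y^d}` and
`N_{y,e} = ∑_k (-1)^k ∑_{z ∈ β_k} z^e` for all `e ≥ 1`.  By the theorem of Deligne they exist for a smooth
projective fibre, and for `k ≤ 2d` they are unique. -/
def IsFrobenius (X : Set (MvPolynomial (Fin n) R)) (d i : ℕ) (y : MaximalSpectrum R)
    (α : Fin N → ℂ) : Prop :=
  ∃ β : ℕ → Multiset ℂ, β i = Finset.univ.val.map α ∧ β 0 = {1} ∧ β (2 * d) = {(norm y : ℂ) ^ d} ∧
    (∀ k, ∀ z ∈ β k, ‖z‖ = (norm y : ℝ) ^ ((k : ℝ) / 2)) ∧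
    ∀ e : ℕ, 1 ≤ e → (points X y e : ℂ) =
      ∑ k ∈ Finset.range (2 * d + 1), (-1 : ℂ) ^ k * ((β k).map fun z => z ^ e).sum

/-- `F` is the function `Φ_i` of `X` over `𝒴 = Spec R`, `dim 𝒴 = D`: the Euler product
`∏_y ∏_j (1 - α_{y,j} q_y^{-s})⁻¹` over all the closed points of `𝒴` for `Re s > D + i/2`; and it is meromorphic
at the points of the real segment from the integer `m` to `D + i/2`. -/
structure IsPhi (X : Set (MvPolynomial (Fin n) R)) (d i D : ℕ) (m : ℤ)
    (α : MaximalSpectrum R → Fin N → ℂ) (F : ℂ → ℂ) : Prop where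
  le : i ≤ 2 * d
  frob : ∀ y, IsFrobenius X d i y (α y)
  edge : (m : ℝ) ≤ D + (i : ℝ) / 2
  mero : ∀ x : ℝ, (m : ℝ) ≤ x → x ≤ D + (i : ℝ) / 2 → MeromorphicAt F (x : ℂ)
  prod : ∀ s : ℂ, (D : ℝ) + (i : ℝ) / 2 < s.re → F s =
    ∏' y : MaximalSpectrum R, ∏ j, (1 - α y j * (norm y : ℂ) ^ (-s))⁻¹

/-- The weight `ω(t/T) = exp(iγ t / T) / Γ(1 + t / T)`. -/
noncomputable def weight (γ T t : ℝ) : ℂ :=
  Complex.exp ((γ * (t / T) : ℝ) * Complex.I) * ((Real.Gamma (1 + t / T))⁻¹ : ℝ)

/-- The term of `W(T)` for the closed point `y = x.1` and `k = x.2 + 1`; `∑_j α_{y,j}^k = t_{y,k}` is the trace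
of the `k`-th power of Frobenius. -/
noncomputable def term (m : ℤ) (α : MaximalSpectrum R → Fin N → ℂ) (γ T : ℝ)
    (x : MaximalSpectrum R × ℕ) : ℂ :=
  -((∑ j, α x.1 j ^ (x.2 + 1)) / ((x.2 + 1) * (norm x.1 : ℂ) ^ (m * (x.2 + 1)))) *
    weight γ T ((x.2 + 1) * Real.log (norm x.1))

/-- `W(T)` -/
noncomputable def W (m : ℤ) (α : MaximalSpectrum R → Fin N → ℂ) (γ T : ℝ) : ℂ :=
  ∑' x, term m α γ T x

/-- `W₁(T)`, the part of `W(T)` with `k = 1`. -/
noncomputable def W₁ (m : ℤ) (α : MaximalSpectrum R → Fin N → ℂ) (γ T : ℝ) : ℂ :=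
  ∑' y, term m α γ T (y, 0)

/-- `κ = ∑_y ∑_{k ≥ 2} t_{y,k} / (k q_y^{mk})` -/
noncomputable def kappa (m : ℤ) (α : MaximalSpectrum R → Fin N → ℂ) : ℝ :=
  ∑' x : MaximalSpectrum R × ℕ, if x.2 = 0 then 0 else
    (∑ j, α x.1 j ^ (x.2 + 1)).re / ((x.2 + 1) * (norm x.1 : ℝ) ^ (m * (x.2 + 1)))

/-- `Λ_γ = ∫_0^∞ (e^{-u} - e^{iγu} / Γ(1 + u)) du / u` -/
noncomputable def Lam (γ : ℝ) : ℂ := ∫ u in Set.Ioi (0 : ℝ),
  (Complex.exp (-(u : ℂ)) - Complex.exp ((γ * u : ℝ) * Complex.I) * ((Real.Gamma (1 + u))⁻¹ : ℝ)) / u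

/-- `Z`, the number of the zeros minus the number of the poles of `F` in the interval `(m, ∞)`, counted
with multiplicity. -/
noncomputable def excess (F : ℂ → ℂ) (m : ℤ) : ℤ :=
  ∑ᶠ x ∈ Set.Ioi (m : ℝ), (meromorphicOrderAt F (x : ℂ)).untop₀

/-- `F` has the order `ρ` and the leading coefficient `B` at `m`. -/
def Leading (F : ℂ → ℂ) (m ρ : ℤ) (B : ℂ) : Prop :=
  Tendsto (fun s : ℂ => (s - m) ^ (-ρ) * F s) (𝓝[≠] (m : ℂ)) (𝓝 B)

/-- The main term `ρ (log T - Λ_γ) - log |B| + π i Z`. -/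
noncomputable def mainTerm (F : ℂ → ℂ) (m ρ : ℤ) (B : ℝ) (γ T : ℝ) : ℂ :=
  ρ * (Real.log T - Lam γ) - Real.log |B| + Real.pi * excess F m * Complex.I

section proof

variable {X : Set (MvPolynomial (Fin n) R)} {d i D : ℕ} {m : ℤ}
  {α : MaximalSpectrum R → Fin N → ℂ} {F : ℂ → ℂ}

theorem IsFrobenius.norm_eq {y : MaximalSpectrum R} {β : Fin N → ℂ} (h : IsFrobenius X d i y β)
    (j : Fin N) : ‖β j‖ = (norm y : ℝ) ^ ((i : ℝ) / 2) := by
  obtain ⟨β', h1, -, -, h2, -⟩ := h
  refine h2 i (β j) ?_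
  rw [h1]
  exact Multiset.mem_map_of_mem _ (Finset.mem_univ_val j)

theorem IsFrobenius.conj {y : MaximalSpectrum R} (hq : 2 ≤ norm y) {β : Fin N → ℂ} (hi : i ≤ 2 * d)
    (h : IsFrobenius X d i y β) :
    Finset.univ.val.map (fun j => (starRingEnd ℂ) (β j)) = Finset.univ.val.map β := by
  obtain ⟨β', h1, -, -, h2, h3⟩ := h
  have hq' : (2 : ℝ) ≤ norm y := by exact_mod_cast hq
  have h4 : β' i = (β' i).map (starRingEnd ℂ) := by
    refine Pool.Agent.TH958.BV.weights_unique (norm y : ℝ) (by linarith) (2 * d + 1) β'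
      (fun k => (β' k).map (starRingEnd ℂ)) h2 (fun k z hz => ?_) (fun e he => ?_) (by omega)
    · obtain ⟨w, hw, rfl⟩ := Multiset.mem_map.1 hz
      rw [RCLike.norm_conj]
      exact h2 k w hw
    · have h6 := congrArg (starRingEnd ℂ) (h3 e he)
      rw [Complex.conj_ofReal, h3 e he, map_sum] at h6
      rw [h6]
      refine Finset.sum_congr rfl fun k _ => ?_
      rw [map_mul, map_pow, map_neg, map_one, map_multiset_sum, Multiset.map_map, Multiset.map_map]
      have h9 : (β' k).map ((starRingEnd ℂ) ∘ fun z => z ^ e) =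
          (β' k).map ((fun z => z ^ e) ∘ (starRingEnd ℂ)) :=
        Multiset.map_congr rfl fun z _ => by simp
      rw [h9]
  rw [h1, Multiset.map_map] at h4
  exact h4.symm

/-- the traces for curves -/
theorem IsFrobenius.curve {y : MaximalSpectrum R} {β : Fin N → ℂ} (h : IsFrobenius X 1 1 y β)
    {e : ℕ} (he : 1 ≤ e) : ∑ j, β j ^ e = (norm y : ℂ) ^ e + 1 - points X y e := by
  obtain ⟨β', h1, h0, h2, -, h3⟩ := h
  have h4 := h3 e he
  rw [show 2 * 1 + 1 = 3 from rfl, Finset.sum_range_succ, Finset.sum_range_succ,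
    Finset.sum_range_succ, Finset.sum_range_zero, h1, h0, show (2 : ℕ) = 2 * 1 from rfl, h2,
    Multiset.map_map] at h4
  simp only [Multiset.map_singleton, Multiset.sum_singleton, pow_one] at h4
  have h5 : (Multiset.map ((fun z => z ^ e) ∘ β) Finset.univ.val).sum = ∑ j, β j ^ e := rfl
  rw [h5] at h4
  rw [h4]
  simp
  ring

variable [Algebra.FiniteType ℤ R]

theorem two_le (y : MaximalSpectrum R) : 2 ≤ norm y := by
  have : Finite (R ⧸ y.asIdeal) := Pool.Agent.TH958.An.finite_res y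
  have : Nontrivial (R ⧸ y.asIdeal) := Ideal.Quotient.nontrivial_iff.2 y.isMaximal.ne_top
  exact Finite.one_lt_card

theorem IsPhi.re (h : IsPhi X d i D m α F) (y : MaximalSpectrum R) (k : ℕ) :
    (∑ j, α y j ^ (k + 1)).im = 0 :=
  Pool.Agent.N41.RM.psum_real_of_stable ((h.frob y).conj (two_le y) h.le) _

variable [IsDomain R]

theorem sum_norm {K : Type} [Field K] [Algebra R K] [IsFractionRing R K] (hD : IsDimension K D)
    {σ : ℝ} (hσ : (D : ℝ) < σ) : Summable fun y : MaximalSpectrum R => (norm y : ℝ) ^ (-σ) := by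
  have hinj : Function.Injective (algebraMap R K) := IsFractionRing.injective R K
  rcases hD with ⟨_, h⟩ | ⟨p, _, _, h, -⟩
  · obtain ⟨e, he⟩ : ∃ e : ℕ, D = e + 1 := by
      have h1 : D ≠ 0 := by
        rintro rfl
        rw [Nat.cast_zero] at h
        have := h ▸ le_add_self (a := (1 : Cardinal)) (b := Algebra.trdeg ℚ K)
        exact absurd this (by simp)
      exact Nat.exists_eq_succ_of_ne_zero h1
    have h2 : Algebra.trdeg ℚ K = e := by
      rw [he] at h
      push_cast at h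
      exact Cardinal.eq_of_add_eq_add_right h Cardinal.one_lt_aleph0
    refine Pool.Agent.Run7.h453.FG.sum_zero hinj h2.le ?_
    rw [he] at hσ
    push_cast at hσ
    exact hσ
  · exact Pool.Agent.Run7.h453.FG.sum_p p hinj h.le hσ

theorem one_le_dim {K : Type} [Field K] (hD : IsDimension K D) : 1 ≤ D := by
  rcases hD with ⟨_, h⟩ | ⟨p, _, _, -, h⟩
  · rw [Nat.one_le_iff_ne_zero]
    rintro rfl
    rw [Nat.cast_zero] at h
    have := h ▸ le_add_self (a := (1 : Cardinal)) (b := Algebra.trdeg ℚ K)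
    exact absurd this (by simp)
  · exact h

theorem IsPhi.ea {K : Type} [Field K] [Algebra R K] [IsFractionRing R K] (hD : IsDimension K D)
    (h : IsPhi X d i D m α F) :
    Pool.Agent.Run7.h453.FG.EA (D : ℝ) ((i : ℝ) / 2)
      (fun y : MaximalSpectrum R => (norm y : ℝ)) α where
  one_le := by exact_mod_cast one_le_dim hD
  two_le := fun y => by exact_mod_cast two_le y
  sum := fun σ hσ => sum_norm hD hσ
  ha := fun y j => ((h.frob y).norm_eq j).le
  real := h.re

omit [IsDomain R] in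
theorem term_eq (h : IsPhi X d i D m α F) (γ T : ℝ) (x : MaximalSpectrum R × ℕ) :
    term m α γ T x = Pool.Agent.Run7.h453.PC.aterm (fun y : MaximalSpectrum R => (norm y : ℝ)) α
      (m : ℝ) γ T x := by
  have hq : (2 : ℝ) ≤ norm x.1 := by exact_mod_cast two_le x.1
  have hq0 : (0 : ℝ) < norm x.1 := by linarith
  have e3 : ((∑ j, α x.1 j ^ (x.2 + 1)).re : ℂ) = ∑ j, α x.1 j ^ (x.2 + 1) := by
    apply Complex.ext
    · simp
    · rw [h.re x.1 x.2, Complex.ofReal_im]
  have e1 : Real.exp (-((m : ℝ) * ((x.2 + 1) * Real.log (norm x.1)))) =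
      ((norm x.1 : ℝ) ^ (m * (x.2 + 1)))⁻¹ := by
    rw [← Real.rpow_intCast, ← Real.rpow_neg hq0.le, Real.rpow_def_of_pos hq0]
    congr 1
    push_cast
    ring
  unfold term Pool.Agent.Run7.h453.PC.aterm Pool.Agent.Run7.h453.PC.cs Pool.Agent.N41.RM.cq
    Pool.Agent.N41.RM.fq weight Pool.Agent.W189.ML.om
  rw [e1]
  push_cast
  rw [e3, div_mul_eq_div_div]
  ring

omit [IsDomain R] in
theorem kappa_eq : kappa m α = Pool.Agent.Run7.h453.FG.kap2 (m : ℝ)
    (fun y : MaximalSpectrum R => (norm y : ℝ)) α := by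
  unfold kappa Pool.Agent.Run7.h453.FG.kap2
  refine tsum_congr fun x => ?_
  split_ifs with hx
  · rfl
  · have hq : (2 : ℝ) ≤ norm x.1 := by exact_mod_cast two_le x.1
    have hq0 : (0 : ℝ) < norm x.1 := by linarith
    have e1 : Real.exp (-((m : ℝ) * ((x.2 + 1) * Real.log (norm x.1)))) =
        ((norm x.1 : ℝ) ^ (m * (x.2 + 1)))⁻¹ := by
      rw [← Real.rpow_intCast, ← Real.rpow_neg hq0.le, Real.rpow_def_of_pos hq0]
      congr 1
      push_cast
      ring
    unfold Pool.Agent.Run7.h453.PC.cs Pool.Agent.N41.RM.cq Pool.Agent.N41.RM.fq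
    rw [e1, div_mul_eq_div_div]
    ring

omit [IsDomain R] in
theorem W_eq (h : IsPhi X d i D m α F) (γ T : ℝ) : W m α γ T =
    ∑' x, Pool.Agent.Run7.h453.PC.aterm (fun y : MaximalSpectrum R => (norm y : ℝ)) α (m : ℝ) γ T x :=
  tsum_congr fun x => term_eq h γ T x

omit [IsDomain R] in
theorem W₁_eq (h : IsPhi X d i D m α F) (γ T : ℝ) : W₁ m α γ T =
    ∑' y, Pool.Agent.Run7.h453.PC.aterm (fun y : MaximalSpectrum R => (norm y : ℝ)) α (m : ℝ) γ T
      (y, 0) :=
  tsum_congr fun y => term_eq h γ T (y, 0)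

end proof

/-- **Theorem.** Let `K` be an infinite finitely generated field, `R` a finitely generated domain with the field
of fractions `K`, `D = dim 𝒴` for `𝒴 = Spec R`, `F = Φ_i` for a smooth projective geometrically connected
variety `X/K` of dimension `d` with a smooth projective model over `𝒴`, `F` meromorphic on the real segment from
the integer `m` to `D + i/2` (`IsPhi`), and `γ > π/2`.

* `W(T)` converges absolutely for `T > 0`; `F` is not identically zero near the points of the ray `[m, ∞)` and has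
  only finitely many zeros and poles there; if it has no poles on `(m, ∞)`, then `Z ≥ 0`, and `Z = 0` if and only if
  it has no zeros there.
* There are the order `ρ` and the leading coefficient `c`, a real number different from `0`, of `F` at `m`, such that
  `W(T) = ρ (log T - Λ_γ) - log |c| + π i Z + O(1/T)`, and, if `D < 2m - i`,
  `W₁(T) = ρ (log T - Λ_γ) - log |c| + π i Z + κ + o(1)`.
* For every integer `ρ` the following are equivalent: `ord_{s=m} F = ρ`; `Re W(T) / log T → ρ`;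
  `Re W(T_k) / log T_k → ρ` for one sequence `T_k → ∞`.  If `D < 2m - i`, the same is true for `W₁` instead of `W`.
* For every integer `ρ` and complex number `B ≠ 0`, `F` has the order `ρ` and the leading coefficient `B` at
  `m` if and only if `exp (W(T_k)) / T_k^ρ → e^{-ρ Λ_γ} / B` for one sequence `T_k → ∞`.  If `D < 2m - i`, the
  same is true for `W₁ - κ` instead of `W`.
* If `X` is a curve and `i = 1`, then the terms of `W(T)` are
  `(N_{y,k} - q_y^k - 1) / (k q_y^{mk}) · ω(k log q_y / T)`. -/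
theorem result (R : Type) [CommRing R] [IsDomain R] [Algebra.FiniteType ℤ R] (K : Type) [Field K]
    [Algebra R K] [IsFractionRing R K] (D : ℕ) (hD : IsDimension K D) (n N d i : ℕ) (m : ℤ)
    (X : Set (MvPolynomial (Fin n) R)) (α : MaximalSpectrum R → Fin N → ℂ) (F : ℂ → ℂ)
    (h : IsPhi X d i D m α F) (γ : ℝ) (hγ : Real.pi / 2 < γ) :
    ((∀ T : ℝ, 0 < T → Summable fun x => ‖term m α γ T x‖) ∧
      (∀ x : ℝ, (m : ℝ) ≤ x → meromorphicOrderAt F (x : ℂ) ≠ ⊤) ∧
      {x : ℝ | (m : ℝ) ≤ x ∧ meromorphicOrderAt F (x : ℂ) ≠ 0}.Finite ∧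
      ((∀ x : ℝ, (m : ℝ) < x → 0 ≤ meromorphicOrderAt F (x : ℂ)) → 0 ≤ excess F m ∧
        (excess F m = 0 ↔ ∀ x : ℝ, (m : ℝ) < x → meromorphicOrderAt F (x : ℂ) = 0))) ∧
    (∃ (ρ : ℤ) (c : ℝ), meromorphicOrderAt F (m : ℂ) = ρ ∧ c ≠ 0 ∧ Leading F m ρ c ∧
      (fun T : ℝ => W m α γ T - mainTerm F m ρ c γ T) =O[atTop] (fun T : ℝ => 1 / T) ∧
      ((D : ℤ) < 2 * m - i →
        Tendsto (fun T : ℝ => W₁ m α γ T - (mainTerm F m ρ c γ T + kappa m α)) atTop (𝓝 0))) ∧
    (∀ ρ : ℤ, List.TFAE [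
      meromorphicOrderAt F (m : ℂ) = ρ,
      Tendsto (fun T : ℝ => (W m α γ T).re / Real.log T) atTop (𝓝 ρ),
      ∃ T : ℕ → ℝ, Tendsto T atTop atTop ∧
        Tendsto (fun k => (W m α γ (T k)).re / Real.log (T k)) atTop (𝓝 ρ)]) ∧
    ((D : ℤ) < 2 * m - i → ∀ ρ : ℤ, List.TFAE [
      meromorphicOrderAt F (m : ℂ) = ρ,
      Tendsto (fun T : ℝ => (W₁ m α γ T).re / Real.log T) atTop (𝓝 ρ),
      ∃ T : ℕ → ℝ, Tendsto T atTop atTop ∧
        Tendsto (fun k => (W₁ m α γ (T k)).re / Real.log (T k)) atTop (𝓝 ρ)]) ∧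
    (∀ (ρ : ℤ) (B : ℂ), B ≠ 0 → (Leading F m ρ B ↔
      ∃ T : ℕ → ℝ, Tendsto T atTop atTop ∧
        Tendsto (fun k => Complex.exp (W m α γ (T k)) / (T k : ℂ) ^ ρ) atTop
          (𝓝 (Complex.exp (-(ρ * Lam γ)) / B)))) ∧
    ((D : ℤ) < 2 * m - i → ∀ (ρ : ℤ) (B : ℂ), B ≠ 0 → (Leading F m ρ B ↔
      ∃ T : ℕ → ℝ, Tendsto T atTop atTop ∧
        Tendsto (fun k => Complex.exp (W₁ m α γ (T k) - kappa m α) / (T k : ℂ) ^ ρ) atTop
          (𝓝 (Complex.exp (-(ρ * Lam γ)) / B)))) ∧
    (d = 1 → i = 1 → ∀ (T : ℝ) (x : MaximalSpectrum R × ℕ), term m α γ T x =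
      ((points X x.1 (x.2 + 1) - (norm x.1 : ℂ) ^ (x.2 + 1) - 1) /
        ((x.2 + 1) * (norm x.1 : ℂ) ^ (m * (x.2 + 1)))) *
      weight γ T ((x.2 + 1) * Real.log (norm x.1))) := by
  have E := h.ea hD
  have hcount : Countable (MaximalSpectrum R) := Pool.Agent.Run7.h453.FG.countable_of_fib
  have hprod : ∀ s : ℂ, (D : ℝ) + (i : ℝ) / 2 < s.re → F s = ∏' y : MaximalSpectrum R,
      ∏ j, (1 - α y j * (((norm y : ℝ) : ℝ) : ℂ) ^ (-s))⁻¹ := fun s hs => by
    rw [h.prod s hs]
    simp only [Complex.ofReal_natCast]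
  obtain ⟨ρ₀, c, h1, h2, hc, h3, h4⟩ := E.law h.edge h.mero hprod hγ
  obtain ⟨h5, h6⟩ := E.finite h.mero hprod
  have h0 := Pool.Agent.Run7.h453.PC.excess_zero_iff' h5 h6
  have hWf : W m α γ = fun T => ∑' x, Pool.Agent.Run7.h453.PC.aterm
      (fun y : MaximalSpectrum R => (norm y : ℝ)) α (m : ℝ) γ T x := funext fun T => W_eq h γ T
  have hW₁f : W₁ m α γ = fun T => ∑' y, Pool.Agent.Run7.h453.PC.aterm
      (fun y : MaximalSpectrum R => (norm y : ℝ)) α (m : ℝ) γ T (y, 0) :=
    funext fun T => W₁_eq h γ T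
  have hex : Pool.Agent.N41.RM.excess F (m : ℝ) = excess F m := rfl
  rw [hex] at h3 h0
  have hmm : (((m : ℝ) : ℂ)) = (m : ℂ) := by push_cast; rfl
  rw [hmm] at h1 h2
  have hmer1 : MeromorphicAt F (m : ℂ) := by
    have := h.mero (m : ℝ) le_rfl h.edge
    rwa [hmm] at this
  have hlead : Leading F m ρ₀ c := Pool.Agent.N41.RM.lim_of_order hmer1 h1 h2
  have hLam : Pool.Agent.W187.UR.Lam γ = Lam γ := rfl
  rw [hLam] at h3 h4
  have h4 : Tendsto (fun T : ℝ => Complex.exp (W m α γ T) / (T : ℂ) ^ ρ₀) atTop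
      (𝓝 (Complex.exp (-(ρ₀ * Lam γ)) / c)) := by
    rw [hWf]
    exact h4
  have hcc : (c : ℂ) ≠ 0 := by exact_mod_cast hc
  have hWlaw : (fun T : ℝ => W m α γ T - mainTerm F m ρ₀ c γ T) =O[atTop]
      (fun T : ℝ => 1 / T) := by
    rw [hWf]
    exact h3
  have ht1 : Tendsto (fun T : ℝ => W m α γ T - mainTerm F m ρ₀ c γ T) atTop (𝓝 0) := by
    refine hWlaw.trans_tendsto ?_
    exact tendsto_const_nhds.div_atTop tendsto_id
  have ht2 : (D : ℤ) < 2 * m - i →
      Tendsto (fun T : ℝ => W₁ m α γ T - (mainTerm F m ρ₀ c γ T + kappa m α)) atTop (𝓝 0) := by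
    intro hlt
    have hlt' : (D : ℝ) < 2 * ((m : ℝ) - (i : ℝ) / 2) := by
      have : (D : ℝ) < 2 * m - i := by exact_mod_cast hlt
      linarith
    rw [hW₁f, kappa_eq]
    rw [hWf] at ht1
    exact E.one_law hlt' ht1
  have ht3 : (D : ℤ) < 2 * m - i →
      Tendsto (fun T : ℝ => W₁ m α γ T - (W m α γ T + kappa m α)) atTop (𝓝 0) := by
    intro hlt
    have e1 := (ht2 hlt).sub ht1
    rw [sub_zero] at e1
    refine e1.congr fun T => ?_
    ring
  refine ⟨⟨fun T hT => ?_, h5, h6, h0⟩, ⟨ρ₀, c, h1, hc, hlead, hWlaw, ht2⟩, fun ρ => ?_,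
    fun hlt ρ => ?_, fun ρ B hB => ?_, fun hlt ρ B hB => ?_, ?_⟩
  · refine (E.summable (m : ℝ) γ hT).congr fun x => ?_
    rw [term_eq h]
  · refine Pool.Agent.Run7.h453.FG.crit_order (c := ρ₀ * (-Lam γ) - Real.log |c| +
      Real.pi * excess F m * Complex.I) (ht1.congr fun T => ?_) h1 ρ
    unfold mainTerm
    ring
  · refine Pool.Agent.Run7.h453.FG.crit_order (c := ρ₀ * (-Lam γ) - Real.log |c| +
      Real.pi * excess F m * Complex.I + kappa m α) ((ht2 hlt).congr fun T => ?_) h1 ρ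
    unfold mainTerm
    ring
  · exact Pool.Agent.Run7.h453.FG.crit_lead hmer1 hcc h1 h2 h4 ρ B hB
  · exact Pool.Agent.Run7.h453.FG.crit_lead hmer1 hcc h1 h2
      (Pool.Agent.Run7.h453.FG.exp_shift (ht3 hlt) h4) ρ B hB
  · rintro rfl rfl T x
    unfold term
    rw [(h.frob x.1).curve (by omega : 1 ≤ x.2 + 1)]
    ring

end Pool.Agent.Results.MP_9faec4_nt.TraceLimitFormula
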